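import Pool.Agent.Helper89.GW.Stmts

/-! CHART: local charts from two commuting functions. -/

set_option autoImplicit false

open scoped ContDiff Topology
open Set Filter

namespace GW

theorem chart_exp (c : E →L[ℝ] ℝ) (u : E) :
    c u = u 0 * c (ev 0) + u 1 * c (ev 1) + u 2 * c (ev 2) + u 3 * c (ev 3) := by
  have h : u = u 0 • ev 0 + u 1 • ev 1 + u 2 • ev 2 + u 3 • ev 3 := by
    funext i
    fin_cases i <;> simp [ev, Pi.single_apply]
  conv_lhs => rw [h]
  simp only [map_add, map_smul, smul_eq_mul]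

theorem chart_lin (a b : E →L[ℝ] ℝ) (u₁ u₂ : E) (h1 : a u₁ = 1) (h2 : b u₁ = 0) (h3 : a u₂ = 0)
    (h4 : b u₂ = 1) (hbr : br a b = 0) (U W : E) (hU1 : a U = 0) (hU2 : b U = 0)
    (hW1 : a W = 0) (hW2 : b W = 0) : om U W = 0 := by
  by_contra hne
  set Xa : E := ![a (ev 1), -a (ev 0), a (ev 3), -a (ev 2)] with hXa
  set Xb : E := ![b (ev 1), -b (ev 0), b (ev 3), -b (ev 2)] with hXb
  have oa : ∀ u, om Xa u = a u := by
    intro u
    rw [chart_exp a u]
    simp only [om, hXa, Matrix.cons_val_zero, Matrix.cons_val_one, Matrix.cons_val]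
    ring
  have ob : ∀ u, om Xb u = b u := by
    intro u
    rw [chart_exp b u]
    simp only [om, hXb, Matrix.cons_val_zero, Matrix.cons_val_one, Matrix.cons_val]
    ring
  have hli : LinearIndependent ℝ ![U, W, Xa, Xb] := by
    rw [Fintype.linearIndependent_iff]
    intro g hg
    have key : ∀ z, g 0 * om U z + g 1 * om W z + g 2 * a z + g 3 * b z = 0 := by
      intro z
      have e : om (∑ i, g i • ![U, W, Xa, Xb] i) z
          = g 0 * om U z + g 1 * om W z + g 2 * om Xa z + g 3 * om Xb z := by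
        simp only [Fin.sum_univ_four, Matrix.cons_val_zero, Matrix.cons_val_one, Matrix.cons_val, om,
          Pi.add_apply, Pi.smul_apply, smul_eq_mul]
        ring
      rw [hg, oa, ob] at e
      rw [← e]
      simp [om]
    have oWW : om W W = 0 := by unfold om; ring
    have oUU : om U U = 0 := by unfold om; ring
    have oWU : om W U = -om U W := by unfold om; ring
    have g0 : g 0 = 0 := by
      have := key W
      rw [oWW, hW1, hW2] at this
      simp only [mul_zero, add_zero] at this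
      exact (mul_eq_zero.mp this).resolve_right hne
    have g1 : g 1 = 0 := by
      have := key U
      rw [oUU, oWU, hU1, hU2] at this
      simp only [mul_zero, add_zero, zero_add] at this
      exact (mul_eq_zero.mp this).resolve_right (neg_ne_zero.mpr hne)
    have g2 : g 2 = 0 := by
      have := key u₁
      rw [g0, g1, h1, h2] at this
      simpa using this
    have g3 : g 3 = 0 := by
      have := key u₂
      rw [g0, g1, h3, h4] at this
      simpa using this
    intro i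
    fin_cases i
    · exact g0
    · exact g1
    · exact g2
    · exact g3
  have hspan := hli.span_eq_top_of_card_eq_finrank' (by simp)
  have hle : Submodule.span ℝ (Set.range ![U, W, Xa, Xb]) ≤ LinearMap.ker (a : E →ₗ[ℝ] ℝ) := by
    rw [Submodule.span_le]
    rintro _ ⟨i, rfl⟩
    fin_cases i
    · exact hU1
    · exact hW1
    · show a Xa = 0
      rw [← oa]
      unfold om
      ring
    · show a Xb = 0
      rw [← oa]
      simp only [om, hXa, hXb, Matrix.cons_val_zero, Matrix.cons_val_one, Matrix.cons_val]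
      unfold br at hbr
      linarith
  rw [hspan] at hle
  have : u₁ ∈ LinearMap.ker (a : E →ₗ[ℝ] ℝ) := hle Submodule.mem_top
  have h5 : a u₁ = 0 := this
  rw [h1] at h5
  exact one_ne_zero h5

/-- two independent covectors can be completed -/
theorem chart_compl (a b : E →L[ℝ] ℝ) (h : LinearIndependent ℝ ![a, b]) :
    ∃ l₁ l₂ : E →L[ℝ] ℝ, Function.Injective (fun u : E => (![l₁ u, a u, l₂ u, b u] : E)) := by
  classical
  -- the map to the plane
  set T : E →ₗ[ℝ] (Fin 2 → ℝ) := LinearMap.pi ![(a : E →ₗ[ℝ] ℝ), (b : E →ₗ[ℝ] ℝ)] with hT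
  have hT0 : ∀ u, T u 0 = a u := fun u => rfl
  have hT1 : ∀ u, T u 1 = b u := fun u => rfl
  have hsurj : LinearMap.range T = ⊤ := by
    by_contra hne
    obtain ⟨f, hf0, hf⟩ := Submodule.exists_le_ker_of_lt_top _ (lt_top_iff_ne_top.mpr hne)
    -- `f` vanishes on the range: a dependence
    have hfe : ∀ y : Fin 2 → ℝ, f y = y 0 * f (Pi.single 0 1) + y 1 * f (Pi.single 1 1) := by
      intro y
      have hy : y = y 0 • Pi.single 0 1 + y 1 • Pi.single 1 1 := by
        funext i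
        fin_cases i <;> simp [Pi.single_apply]
      conv_lhs => rw [hy]
      simp only [map_add, map_smul, smul_eq_mul]
    have hdep : f (Pi.single 0 1) • a + f (Pi.single 1 1) • b = 0 := by
      ext u
      have h1 : f (T u) = 0 := hf (LinearMap.mem_range_self T u)
      rw [hfe, hT0, hT1] at h1
      simp only [ContinuousLinearMap.add_apply, ContinuousLinearMap.smul_apply, smul_eq_mul,
        ContinuousLinearMap.zero_apply]
      linarith
    have h2 := (LinearIndependent.pair_iff.mp h) _ _ hdep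
    apply hf0
    ext i
    fin_cases i
    · simpa using h2.1
    · simpa using h2.2
  have hker : Module.finrank ℝ (LinearMap.ker T) = 2 := by
    have h1 := LinearMap.finrank_range_add_finrank_ker T
    rw [hsurj, finrank_top] at h1
    simp only [Module.finrank_fintype_fun_eq_card, Fintype.card_fin] at h1
    omega
  obtain ⟨P, hP⟩ := LinearMap.exists_leftInverse_of_injective (LinearMap.ker T).subtype
    (Submodule.ker_subtype _)
  have e : LinearMap.ker T ≃ₗ[ℝ] (Fin 2 → ℝ) :=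
    LinearEquiv.ofFinrankEq _ _ (by rw [hker]; simp)
  set l : E →ₗ[ℝ] (Fin 2 → ℝ) := (e : LinearMap.ker T →ₗ[ℝ] (Fin 2 → ℝ)) ∘ₗ P with hl
  refine ⟨LinearMap.toContinuousLinearMap ((LinearMap.proj 0) ∘ₗ l),
    LinearMap.toContinuousLinearMap ((LinearMap.proj 1) ∘ₗ l), ?_⟩
  -- injectivity
  set A : E →ₗ[ℝ] E := LinearMap.pi ![(LinearMap.proj 0) ∘ₗ l, (a : E →ₗ[ℝ] ℝ), (LinearMap.proj 1) ∘ₗ l,
    (b : E →ₗ[ℝ] ℝ)] with hA
  have hAe : (fun u : E => (![LinearMap.toContinuousLinearMap ((LinearMap.proj 0) ∘ₗ l) u, a u,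
      LinearMap.toContinuousLinearMap ((LinearMap.proj 1) ∘ₗ l) u, b u] : E)) = A := by
    funext u i
    fin_cases i <;> rfl
  rw [hAe]
  rw [← LinearMap.ker_eq_bot, LinearMap.ker_eq_bot']
  intro u hu
  have h0 : l u 0 = 0 := congrFun hu 0
  have h1 : a u = 0 := congrFun hu 1
  have h2 : l u 1 = 0 := congrFun hu 2
  have h3 : b u = 0 := congrFun hu 3
  have hk : u ∈ LinearMap.ker T := by
    rw [LinearMap.mem_ker]
    funext i
    fin_cases i
    · exact h1
    · exact h3
  have hl0 : l u = 0 := by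
    funext i
    fin_cases i
    · exact h0
    · exact h2
  have hP0 : P u = 0 := by
    have : e (P u) = 0 := hl0
    exact e.map_eq_zero_iff.mp this
  have hPu : P u = ⟨u, hk⟩ := LinearMap.congr_fun hP ⟨u, hk⟩
  rw [hPu] at hP0
  exact congrArg Subtype.val hP0

theorem st_CHART : ST_CHART := by
  intro L p hp hL
  obtain ⟨V, hV, hpV, G₁, G₂, hG₁, hG₂, hmem, hli, hbr⟩ := hL
  obtain ⟨l₁, l₂, hinj⟩ := chart_compl _ _ hli
  -- the map
  set Θ : E → E := fun q => ![l₁ q, G₁ q, l₂ q, G₂ q] with hΘ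
  have hΘs : ContDiffOn ℝ ∞ Θ V := by
    rw [contDiffOn_pi]
    intro i
    fin_cases i
    · exact l₁.contDiff.contDiffOn
    · exact hG₁
    · exact l₂.contDiff.contDiffOn
    · exact hG₂
  have hΘa : ∀ q ∈ V, ContDiffAt ℝ ∞ Θ q := fun q hq => hΘs.contDiffAt (hV.mem_nhds hq)
  have hΘd : ∀ q ∈ V, HasFDerivAt Θ (fderiv ℝ Θ q) q := fun q hq =>
    ((hΘa q hq).differentiableAt (by simp)).hasFDerivAt
  -- components of the derivative
  have hcomp : ∀ q ∈ V, ∀ u, fderiv ℝ Θ q u = ![l₁ u, fderiv ℝ G₁ q u, l₂ u, fderiv ℝ G₂ q u] := by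
    intro q hq u
    have hd := hΘd q hq
    have hG1d : HasFDerivAt G₁ (fderiv ℝ G₁ q) q :=
      ((hG₁.contDiffAt (hV.mem_nhds hq)).differentiableAt (by simp)).hasFDerivAt
    have hG2d : HasFDerivAt G₂ (fderiv ℝ G₂ q) q :=
      ((hG₂.contDiffAt (hV.mem_nhds hq)).differentiableAt (by simp)).hasFDerivAt
    have hd2 : HasFDerivAt Θ (ContinuousLinearMap.pi ![l₁, fderiv ℝ G₁ q, l₂, fderiv ℝ G₂ q]) q := by
      rw [hasFDerivAt_pi]
      intro i
      fin_cases i
      · exact l₁.hasFDerivAt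
      · exact hG1d
      · exact l₂.hasFDerivAt
      · exact hG2d
    rw [hd.unique hd2]
    funext i
    fin_cases i <;> rfl
  -- invertibility
  set Inv : Set E := {q | fderiv ℝ Θ q ∈ range ((↑) : (E ≃L[ℝ] E) → E →L[ℝ] E)} with hInv
  have hopen : IsOpen (V ∩ Inv) := by
    have hc : ContinuousOn (fderiv ℝ Θ) V := hΘs.continuousOn_fderiv_of_isOpen hV (by simp)
    exact hc.isOpen_inter_preimage hV ContinuousLinearEquiv.isOpen
  have hpI : p ∈ Inv := by
    have hinj' : Function.Injective (fderiv ℝ Θ p) := by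
      intro u v huv
      rw [hcomp p hpV u, hcomp p hpV v] at huv
      exact hinj huv
    have hker : LinearMap.ker (fderiv ℝ Θ p : E →ₗ[ℝ] E) = ⊥ := LinearMap.ker_eq_bot.mpr hinj'
    refine ⟨(LinearEquiv.ofInjectiveEndo (fderiv ℝ Θ p : E →ₗ[ℝ] E) hinj').toContinuousLinearEquiv, ?_⟩
    ext u i
    rfl
  obtain ⟨A, hA⟩ := hpI
  have hder : HasFDerivAt Θ (A : E →L[ℝ] E) p := by rw [hA]; exact hΘd p hpV
  have hn : (∞ : WithTop ℕ∞) ≠ 0 := by simp
  set e := (hΘa p hpV).toOpenPartialHomeomorph Θ hder hn with he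
  have hecoe : (e : E → E) = Θ := (hΘa p hpV).toOpenPartialHomeomorph_coe hder hn
  have hpe : p ∈ e.source := (hΘa p hpV).mem_toOpenPartialHomeomorph_source hder hn
  set W : Set E := e.target ∩ e.symm ⁻¹' (V ∩ Inv) with hW
  have hWo : IsOpen W := e.symm.isOpen_inter_preimage hopen
  have hWd : ∀ x ∈ W, ∃ B : E ≃L[ℝ] E, (B : E →L[ℝ] E) = fderiv ℝ Θ (e.symm x) ∧
      HasFDerivAt e.symm (B.symm : E →L[ℝ] E) x ∧ ContDiffAt ℝ ∞ e.symm x := by
    intro x hx
    obtain ⟨hxt, hxV, hxI⟩ := hx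
    obtain ⟨B, hB⟩ := hxI
    have hd : HasFDerivAt e (B : E →L[ℝ] E) (e.symm x) := by
      rw [hecoe, hB]; exact hΘd _ hxV
    refine ⟨B, hB, ?_, ?_⟩
    · exact e.hasFDerivAt_symm hxt hd
    · refine e.contDiffAt_symm hxt hd ?_
      rw [hecoe]; exact hΘa _ hxV
  have hpsymm : e.symm (e p) = p := e.left_inv hpe
  have hfix : ∀ x ∈ W, Θ (e.symm x) = x := by
    intro x hx
    have := e.right_inv hx.1
    rw [hecoe] at this
    exact this
  have hL' : ∀ x ∈ W, (e.symm x ∈ L ↔ x 1 = 0 ∧ x 3 = 0) := by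
    intro x hx
    rw [hmem _ hx.2.1]
    have h1 : x 1 = G₁ (e.symm x) := by
      conv_lhs => rw [← hfix x hx]
      rfl
    have h3 : x 3 = G₂ (e.symm x) := by
      conv_lhs => rw [← hfix x hx]
      rfl
    rw [h1, h3]
  refine ⟨W, e.symm, hWo, ?_, ?_, ?_, ?_, ?_, ?_⟩
  · intro x hx
    obtain ⟨B, -, -, h⟩ := hWd x hx
    exact h.contDiffWithinAt
  · exact e.symm.injOn.mono (fun x hx => hx.1)
  · intro x hx
    obtain ⟨B, -, h, -⟩ := hWd x hx
    rw [h.fderiv]
    exact B.symm.injective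
  · refine ⟨e p, ⟨e.map_source hpe, ?_⟩, hpsymm⟩
    show e.symm (e p) ∈ V ∩ Inv
    rw [hpsymm]
    exact ⟨hpV, ⟨A, hA⟩⟩
  · ext q
    constructor
    · rintro ⟨hqL, x, hx, rfl⟩
      have := (hL' x hx).mp hqL
      exact ⟨x, ⟨hx, this.1, this.2⟩, rfl⟩
    · rintro ⟨x, ⟨hx, h1, h3⟩, rfl⟩
      exact ⟨(hL' x hx).mpr ⟨h1, h3⟩, x, hx, rfl⟩
  · intro x hx hx1 hx3 u v hu1 hu3 hv1 hv3
    obtain ⟨B, hB, hd, -⟩ := hWd x hx
    have hqV : e.symm x ∈ V := hx.2.1
    have hq := (hL' x hx).mpr ⟨hx1, hx3⟩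
    have hz := (hmem _ hqV).mp hq
    have hb := hbr _ hqV hz.1 hz.2
    rw [hd.fderiv]
    have hΘB : ∀ u, fderiv ℝ Θ (e.symm x) (B.symm u) = u := by
      intro u
      rw [← hB]
      exact B.apply_symm_apply u
    have hG : ∀ u, fderiv ℝ G₁ (e.symm x) (B.symm u) = u 1 ∧
        fderiv ℝ G₂ (e.symm x) (B.symm u) = u 3 := by
      intro u
      have h := hΘB u
      rw [hcomp _ hqV] at h
      exact ⟨congrFun h 1, congrFun h 3⟩
    have r := chart_lin (fderiv ℝ G₁ (e.symm x)) (fderiv ℝ G₂ (e.symm x)) (B.symm (ev 1)) (B.symm (ev 3))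
      (by rw [(hG _).1]; simp [ev]) (by rw [(hG _).2]; simp [ev, Pi.single_apply])
      (by rw [(hG _).1]; simp [ev, Pi.single_apply])
      (by rw [(hG _).2]; simp [ev]) hb (B.symm u) (B.symm v)
      (by rw [(hG _).1]; exact hu1) (by rw [(hG _).2]; exact hu3)
      (by rw [(hG _).1]; exact hv1) (by rw [(hG _).2]; exact hv3)
    exact r

end GW
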